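import Mathlib
import Pool.Agent.J6H29.PL.Clt

set_option autoImplicit false

/-!
# The numbers `(a ^ p - b ^ p) / (a - b)`: the central limit theorem

For integers `a`, `b` with `1 ≤ |b| < a`, a real `β > 0` and a prime `p` let `W a b β p` be the
`p`-rough part (the product, with multiplicity, of the prime factors larger than `p`) of
`⌈β a ^ p⌉ - ⌈b ^ p / (a - b)⌉`.  For coprime `a`, `b` and `β = 1 / (a - b)` this is the number
`(a ^ p - b ^ p) / (a - b)` of the question, for every prime `p` that does not divide `a - b`.

The model of Lenstra, Pomerance and Wagstaff predicts that for a set `T` of primes the number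
`N a b T β` of the `p` in `T` with `W a b β p` prime has, for a random `β`, the mean `κ a * V T`
and the same variance, where `V T` is the sum of `log p / p` and `κ a = e ^ γ / log a`, and that it is
asymptotically normal.  We prove this for sparse sets of primes, for all pairs `(a, b)` and any absolutely
continuous law of `β` on the positive reals: if `V (T n j) → ∞` for the disjoint finite sets of primes
`T n 1, …, T n k`, and if the weights of these sets in the intervals `(x, 2 x]` tend to zero as
`x → ∞` (uniformly in `n`), then the normalised numbers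
`(N a b (T n j) β - κ a * V (T n j)) / sqrt (κ a * V (T n j))` converge in law to independent
standard normal variables.  For one set `S` of primes with `V S = ∞` and small weights in the intervals
`(x, 2 x]` this is the central limit theorem for the counting function of the exponents in `S`; with
the sets `S ∩ (x j, x (j + 1)]` it gives the convergence of the finite-dimensional distributions to those
of Brownian motion.  As in `PoissonLaw.lean`, for `|b| = 1` (and only then) a condition on the pairs of
near exponents is needed.

The start files (`WindowsForAllPairs.lean` and the files named there) prove, for almost every `β`, that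
the difference is `O (sqrt (V log log V))`; the theorem shows that for such sets of exponents this is
best possible up to the factor `sqrt (log log V)`, and identifies the constant `κ a` of the variance.
The authors of the sieve bounds are named in `WindowsForAllPairs.lean`; the characteristic functional
is the work of helper29.
-/

namespace Pool.Agent.Results.MP_de9007_nt.CentralLimit

open Filter Topology MeasureTheory ProbabilityTheory

/-- The product, with multiplicity, of the prime factors of `m` that are larger than `p`. -/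
def roughPart (p m : ℕ) : ℕ := (m.primeFactorsList.filter (fun r => p < r)).prod

/-- The `p`-rough part of `⌈β a ^ p⌉ - ⌈b ^ p / (a - b)⌉`. -/
noncomputable def W (a : ℕ) (b : ℤ) (β : ℝ) (p : ℕ) : ℕ :=
  roughPart p (⌈β * (a : ℝ) ^ p⌉ - ⌈(b : ℝ) ^ p / ((a : ℝ) - b)⌉).toNat

open Classical in
/-- The number of the elements `p` of `T` for which `W a b β p` is prime. -/
noncomputable def N (a : ℕ) (b : ℤ) (T : Finset ℕ) (β : ℝ) : ℕ := (T.filter (fun p => (W a b β p).Prime)).card

/-- The weight of a set: the sum of `log p / p`. -/
noncomputable def V (T : Finset ℕ) : ℝ := ∑ p ∈ T, Real.log p / p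

/-- The sum of `(log p / p) * a ^ (-(q - p))` over the pairs `p < q` in `U`. -/
noncomputable def clusters (a : ℕ) (U : Finset ℕ) : ℝ :=
  ∑ q ∈ U, ∑ p ∈ U.filter (fun p => p < q), Real.log p / p / (a : ℝ) ^ (q - p)

/-- The constant of the law, `e ^ γ / log a`. -/
noncomputable def κ (a : ℕ) : ℝ := Real.exp Real.eulerMascheroniConstant / Real.log a

open Classical in
/-- The primes `p ≤ n` in `S`. -/
noncomputable def upTo (S : Set ℕ) (n : ℕ) : Finset ℕ := (Finset.range (n + 1)).filter (fun p => p.Prime ∧ p ∈ S)

/-- The special values; the central limit theorem for disjoint sparse families of exponents, for all pairs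
and all absolutely continuous laws of the amplitude; the central limit theorem for one sparse set of
exponents. -/
theorem result :
    (∀ (a : ℕ) (b : ℤ), 1 ≤ |b| → |b| < a → IsCoprime (a : ℤ) b → ∀ p : ℕ, p.Prime →
      ¬ (p : ℤ) ∣ a - b → (W a b (1 / ((a : ℝ) - b)) p : ℤ) * (a - b) = (a : ℤ) ^ p - b ^ p) ∧
    (∀ (a : ℕ) (b : ℤ), 1 ≤ |b| → |b| < a → ∀ (k : ℕ) (T : ℕ → Fin k → Finset ℕ),
      (∀ n j, ∀ p ∈ T n j, p.Prime) →
      (∀ n, Pairwise fun i j => Disjoint (T n i) (T n j)) →
      (∀ j, Tendsto (fun n => V (T n j)) atTop atTop) →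
      (∀ ε : ℝ, 0 < ε → ∃ P : ℕ, ∀ᶠ n in atTop, ∀ j, ∀ x ≥ P,
        V ((T n j).filter (fun p => x < p ∧ p ≤ 2 * x)) ≤ ε) →
      (|b| = 1 → ∀ j, Tendsto (fun n => clusters a (Finset.univ.biUnion (T n)) / V (T n j)) atTop (𝓝 0)) →
      ∀ ν : Measure ℝ, IsProbabilityMeasure ν → ν ≪ volume → ν (Set.Iic 0) = 0 → ∀ t : Fin k → ℝ,
      Tendsto (fun n => ν.real {β | ∀ j, (N a b (T n j) β - κ a * V (T n j)) / √(κ a * V (T n j)) ≤ t j}) atTop
        (𝓝 (∏ j, (gaussianReal 0 1).real (Set.Iic (t j))))) ∧
    (∀ (a : ℕ) (b : ℤ), 1 ≤ |b| → |b| < a → ∀ S : Set ℕ,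
      Tendsto (fun n => V (upTo S n)) atTop atTop →
      Tendsto (fun x => V (upTo S (2 * x)) - V (upTo S x)) atTop (𝓝 0) →
      (|b| = 1 → Tendsto (fun n => clusters a (upTo S n) / V (upTo S n)) atTop (𝓝 0)) →
      ∀ ν : Measure ℝ, IsProbabilityMeasure ν → ν ≪ volume → ν (Set.Iic 0) = 0 → ∀ t : ℝ,
      Tendsto (fun n => ν.real {β | (N a b (upTo S n) β - κ a * V (upTo S n)) / √(κ a * V (upTo S n)) ≤ t}) atTop
        (𝓝 ((gaussianReal 0 1).real (Set.Iic t)))) := by
  classical
  refine ⟨fun a b _ h2 h3 p hp hpd => Pool.Agent.N176.SH.spe h2 h3 hp hpd, ?_, ?_⟩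
  · intro a b h1 h2 k T hT hdis hV hD hC ν hν1 hν2 hν3 t
    have := hν1
    exact Pool.Agent.J6H29.PL.clt h1 h2 hT hdis hV hD hC ν hν2 hν3 t
  · intro a b h1 h2 S hV hD hC ν hν1 hν2 hν3 t
    have := hν1
    have key := Pool.Agent.J6H29.PL.clt (k := 1) (T := fun n _ => upTo S n) h1 h2
      (fun n _ p hp => (Finset.mem_filter.1 hp).2.1) (fun n i j hij => absurd (Subsingleton.elim i j) hij)
      (fun _ => hV) ?_ ?_ ν hν2 hν3 (fun _ => t)
    · rw [Finset.prod_const, Finset.card_univ, Fintype.card_fin, pow_one] at key
      refine key.congr fun n => ?_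
      congr 1
      ext β
      exact ⟨fun h => h 0, fun h _ => h⟩
    · intro ε hε
      obtain ⟨P, hP⟩ := eventually_atTop.1 (hD.eventually_lt_const hε)
      refine ⟨P, Eventually.of_forall fun n _ x hx => le_trans ?_ (hP x hx).le⟩
      have hsub : (upTo S n).filter (fun p => x < p ∧ p ≤ 2 * x) ⊆ upTo S (2 * x) \ upTo S x := by
        intro p hp
        unfold upTo at hp ⊢
        simp only [Finset.mem_filter, Finset.mem_range, Finset.mem_sdiff] at hp ⊢
        refine ⟨⟨by omega, hp.1.2⟩, fun h => ?_⟩
        omega
      have hsub2 : upTo S x ⊆ upTo S (2 * x) := by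
        intro p hp
        unfold upTo at hp ⊢
        simp only [Finset.mem_filter, Finset.mem_range] at hp ⊢
        exact ⟨by omega, hp.2⟩
      have h3 : V (upTo S (2 * x) \ upTo S x) = V (upTo S (2 * x)) - V (upTo S x) := by
        unfold V
        rw [eq_sub_iff_add_eq, Finset.sum_sdiff hsub2]
      rw [← h3]
      exact Finset.sum_le_sum_of_subset_of_nonneg hsub fun p _ _ => Pool.Agent.J6H29.PL.wt_nonneg p
    · intro hb _
      refine (hC hb).congr fun n => ?_
      have e : Finset.univ.biUnion (fun _ : Fin 1 => upTo S n) = upTo S n := by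
        ext p
        simp
      rw [e]
      rfl

end Pool.Agent.Results.MP_de9007_nt.CentralLimit
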