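import Mathlib
import Pool.Agent.J6H13.UM.LPW

set_option autoImplicit false

/-!
# The Lenstra-Pomerance-Wagstaff constant in sequential random models of the primes

The question is whether the number of the primes `p ≤ y` for which `(a ^ p - b ^ p) / (a - b)` is prime is asymptotic
to `(e ^ γ + m(a, b) log 2) log_a y` for every admissible pair `(a, b)`.  We consider random models of the primes with
a growing sieve: the integers are decided one after the other; no `m` with a prime factor `q ≤ z(m)` is chosen; the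
conditional probability of choosing `m + 1` (without such prime factors) given the past is asymptotic to
`W(z(m + 1)) / log m`, `W(x) = ∏ (1 - 1/q)⁻¹` over the primes `q ≤ x`.  No independence and no rate is assumed.  The
range of the sieve is `z(m) = (log m) ^ (θ + o(1))`, and `z(m) ≤ c log m` with `c log a < 2`.

For all coprime pairs `(a, b)`, `a > 1`, `-a < b < a`, at once, almost surely the number of the primes `p ≤ y` for
which `(a ^ p - b ^ p) / (a - b)` is chosen is asymptotic to `θ e ^ γ log_a y`.  So the models with `θ = 1`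
(for instance `z(m) = log m / log log m`, which is admitted for all pairs) give the constant `e ^ γ` for all pairs,
and the constant of the question only if `m(a, b) = 0`.  The same holds for the exponents in any set `E` of primes
with divergent `∑ log p / p`, with `V_E(y) / log a` instead of `log_a y`, `V_E(y) = ∑ log p / p` over `p ≤ y` in `E`.

The proof uses the martingale law of the starting project `Pool.Agent.R528.RM`, that all prime factors of
`(a ^ p - b ^ p) / (a - b)` are at least `2 p + 1` for `p > a - b`, and the theorems of Mertens.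
-/

open MeasureTheory Filter
open scoped Topology

namespace Pool.Agent.Results.MP_de9007_nt.GrowingSieveModels

/-- `m` has no prime factor `q ≤ z m` -/
def Rough (z : ℕ → ℕ) (m : ℕ) : Prop := ∀ q : ℕ, q.Prime → q ≤ z m → ¬ q ∣ m

/-- `∏ (1 - 1/q)⁻¹` over the primes `q ≤ x` -/
noncomputable def W (x : ℕ) : ℝ := ∏ q ∈ (Finset.Icc 1 x).filter Nat.Prime, (1 - (q : ℝ)⁻¹)⁻¹

/-- a sequential random model of the primes sieved by the primes `q ≤ z(m)` -/
structure IsModel {Ω : Type} [mΩ : MeasurableSpace Ω] (μ : Measure Ω) (ℱ : Filtration ℕ mΩ)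
    (S : ℕ → Set Ω) (z : ℕ → ℕ) : Prop where
  /-- whether `n` is chosen is known at the time `n` -/
  adapted : ∀ n, MeasurableSet[ℱ n] (S n)
  /-- no `n` with a prime factor `q ≤ z n` is chosen -/
  sieved : ∀ n, ¬ Rough z n → S n = ∅
  /-- the conditional probability of `S (n + 1)` given `ℱ n` is asymptotic to `W (z (n + 1)) / log n`
  along the `n` with `Rough z (n + 1)` -/
  density : ∀ᵐ ω ∂μ, Tendsto (fun n : ℕ =>
    (μ[(S (n + 1)).indicator (fun _ => (1 : ℝ)) | ℱ n]) ω * Real.log n / W (z (n + 1)))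
    (atTop ⊓ 𝓟 {n : ℕ | Rough z (n + 1)}) (𝓝 1)

open Classical in
/-- the number of the primes `p ≤ y` in `E` such that `(a ^ p - b ^ p) / (a - b)` belongs to `S` -/
noncomputable def N (S : Set ℕ) (E : Set ℕ) (a b : ℤ) (y : ℕ) : ℕ :=
  ((Finset.range (y + 1)).filter
    (fun p => (p.Prime ∧ p ∈ E) ∧ ((a ^ p - b ^ p) / (a - b)).toNat ∈ S)).card

open Classical in
/-- the sum of `log p / p` over the primes `p ≤ y` in `E` -/
noncomputable def V (E : Set ℕ) (y : ℕ) : ℝ :=
  ∑ p ∈ (Finset.range (y + 1)).filter (fun p => p.Prime ∧ p ∈ E), Real.log p / p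

/-- the sieve by the primes `q ≤ z(m)` does not reach the numbers `(a ^ p - b ^ p) / (a - b)` -/
def Below (z : ℕ → ℕ) (a : ℤ) : Prop := ∃ c : ℝ, c * Real.log a < 2 ∧ ∀ᶠ m : ℕ in atTop, (z m : ℝ) ≤ c * Real.log m

lemma rough_iff (z : ℕ → ℕ) (m : ℕ) : Pool.Agent.J6H13.UM.Rough Set.univ z m ↔ Rough z m :=
  ⟨fun h q hq => h q (Set.mem_univ q) hq, fun h q _ hq => h q hq⟩

lemma conv {Ω : Type} [mΩ : MeasurableSpace Ω] {μ : Measure Ω} {ℱ : Filtration ℕ mΩ} {S : ℕ → Set Ω} {z : ℕ → ℕ}
    (hM : IsModel μ ℱ S z) : Pool.Agent.J6H13.UM.IsModel μ ℱ S Set.univ z := by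
  refine ⟨hM.adapted, fun n hn => hM.sieved n (fun h => hn ((rough_iff z n).2 h)), ?_⟩
  have h1 : {n : ℕ | Pool.Agent.J6H13.UM.Rough Set.univ z (n + 1)} = {n : ℕ | Rough z (n + 1)} := by
    ext n
    exact rough_iff z (n + 1)
  have h2 := hM.density
  filter_upwards [h2] with ω hω
  rw [h1]
  simp only [Pool.Agent.J6H13.UM.W_univ]
  exact hω

lemma N_eq {Ω : Type} (S : ℕ → Set Ω) (ω : Ω) (E : Set ℕ) (a b : ℤ) (y : ℕ) :
    N {k | ω ∈ S k} E a b y = Pool.Agent.J6H13.UM.cntM S ω E a b y := by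
  classical
  unfold N Pool.Agent.J6H13.UM.cntM Pool.Agent.J6H13.UM.MM
  congr 1

/-- In the models almost surely for all coprime pairs the number of the primes `p ≤ y` with
`(a ^ p - b ^ p) / (a - b)` chosen is asymptotic to `θ e ^ γ log_a y`, and the same for sets of exponents. -/
theorem result (θ : ℝ) (hθ : 0 < θ) (z : ℕ → ℕ)
    (hz : Tendsto (fun m : ℕ => Real.log (z m) / Real.log (Real.log m)) atTop (𝓝 θ))
    {Ω : Type} [mΩ : MeasurableSpace Ω] (μ : Measure Ω) [IsProbabilityMeasure μ]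
    (ℱ : Filtration ℕ mΩ) (S : ℕ → Set Ω) (hM : IsModel μ ℱ S z) :
    (∀ᵐ ω ∂μ, ∀ a b : ℤ, 1 < a → -a < b → b < a → IsCoprime a b → Below z a →
      Tendsto (fun y : ℝ => (N {k | ω ∈ S k} Set.univ a b ⌊y⌋₊ : ℝ) / (Real.log y / Real.log a)) atTop
        (𝓝 (θ * Real.exp Real.eulerMascheroniConstant))) ∧
    (∀ E : Set ℕ, Tendsto (V E) atTop atTop →
      ∀ᵐ ω ∂μ, ∀ a b : ℤ, 1 < a → -a < b → b < a → IsCoprime a b → Below z a →
        Tendsto (fun y : ℕ => (N {k | ω ∈ S k} E a b y : ℝ) / (V E y / Real.log a)) atTop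
          (𝓝 (θ * Real.exp Real.eulerMascheroniConstant))) := by
  have hM' := conv hM
  constructor
  · have h : ∀ a b : ℤ, ∀ᵐ ω ∂μ, 1 < a → -a < b → b < a → IsCoprime a b → Below z a →
        Tendsto (fun y : ℝ => (N {k | ω ∈ S k} Set.univ a b ⌊y⌋₊ : ℝ) / (Real.log y / Real.log a)) atTop
          (𝓝 (θ * Real.exp Real.eulerMascheroniConstant)) := by
      intro a b
      by_cases hc : 1 < a ∧ -a < b ∧ b < a ∧ IsCoprime a b ∧ Below z a
      · obtain ⟨h1, h2, h3, h4, c, h5, h6⟩ := hc
        filter_upwards [Pool.Agent.J6H13.UM.lpw_one hM' hθ hz h4 h1 h2 h3 h5 h6] with ω hω _ _ _ _ _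
        simp only [N_eq]
        exact hω
      · exact Eventually.of_forall fun ω h1 h2 h3 h4 h5 => absurd ⟨h1, h2, h3, h4, h5⟩ hc
    exact ae_all_iff.2 fun a => ae_all_iff.2 (h a)
  · intro E hE
    have h : ∀ a b : ℤ, ∀ᵐ ω ∂μ, 1 < a → -a < b → b < a → IsCoprime a b → Below z a →
        Tendsto (fun y : ℕ => (N {k | ω ∈ S k} E a b y : ℝ) / (V E y / Real.log a)) atTop
          (𝓝 (θ * Real.exp Real.eulerMascheroniConstant)) := by
      intro a b
      by_cases hc : 1 < a ∧ -a < b ∧ b < a ∧ IsCoprime a b ∧ Below z a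
      · obtain ⟨h1, h2, h3, h4, c, h5, h6⟩ := hc
        have e1 : ∀ x : ℕ, V E (x + 1) = ∑ n ∈ Finset.range x, Pool.Agent.J6H13.UM.lw E n := fun x =>
          Pool.Agent.J6H13.UM.VE_sum E x
        have hE2 : Tendsto (fun x => ∑ n ∈ Finset.range x, Pool.Agent.J6H13.UM.lw E n) atTop atTop :=
          (hE.comp (tendsto_add_atTop_nat 1)).congr fun x => e1 x
        have ha1 : (1 : ℝ) < a := by exact_mod_cast h1
        have hla : 0 < Real.log a := Real.log_pos ha1
        filter_upwards [Pool.Agent.J6H13.UM.lpw_set E hE2 hM' hθ hz h4 h1 h2 h3 h5 h6] with ω hω _ _ _ _ _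
        rw [← tendsto_add_atTop_iff_nat 1]
        have h7 := hω.mul_const (Real.log a)
        rw [div_mul_cancel₀ _ hla.ne'] at h7
        refine h7.congr fun x => ?_
        rw [N_eq, e1]
        field_simp
      · exact Eventually.of_forall fun ω h1 h2 h3 h4 h5 => absurd ⟨h1, h2, h3, h4, h5⟩ hc
    exact ae_all_iff.2 fun a => ae_all_iff.2 (h a)

end Pool.Agent.Results.MP_de9007_nt.GrowingSieveModels
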