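import Mathlib
import Pool.Agent.J6H88.PC.Par
import Pool.Agent.H447R2.ML.Spec

set_option autoImplicit false

/-!
# The generalized Lenstra-Pomerance-Wagstaff law at almost every point of every curve of pairs

For real `a > 1` and `b` with `|b| < a` and a prime `p` let `W a b p` be the `p`-rough part (the
product, with multiplicity, of the prime factors larger than `p`) of `⌊(a ^ p - b ^ p) / (a - b)⌋`.
For coprime integers `a`, `b` and `p` prime to `a - b` this is the number
`(a ^ p - b ^ p) / (a - b)` itself.  For a set `S` let `M S a b n` be the number of primes `p ≤ n`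
in `S` with `W a b p` prime, and let `V S n` be the sum of `log p / p` over the primes `p ≤ n` in
`S`.

Let `s ↦ (α s, β s)`, `s ∈ I`, be an ARBITRARY curve of class `C²` in the region `a > 1`, `|b| < a`
without vertical tangents (`α' ≠ 0`); for instance the graph `b = φ a` of any `C²` function.  We
prove that at almost every point `(a, b)` of the curve the number of primes `p ≤ n` with `W a b p`
prime is `(e ^ γ / log a) log n + O((log n) ^ (1/2) (log log n) ^ (5/2))`; that for every set `S`
of primes, at almost every point, there are infinitely many such primes `p` in `S` if and only if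
`V S n` is unbounded; and that in this case
`M S a b n = (e ^ γ / log a) V S n + O((V L) ^ (1/2) (log (V L)) ^ 2)` with `V = V S n` and
`L = log log n`.  The starting result RealPairs is the case of the horizontal lines `b = const`.
-/

namespace Pool.Agent.Results.MP_de9007_nt.PairsOnCurves

open Filter Topology MeasureTheory Asymptotics

/-- The product, with multiplicity, of the prime factors of `m` that are larger than `p`. -/
def roughPart (p m : ℕ) : ℕ := (m.primeFactorsList.filter (fun r => p < r)).prod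

/-- The `p`-rough part of `⌊(a ^ p - b ^ p) / (a - b)⌋`. -/
noncomputable def W (a b : ℝ) (p : ℕ) : ℕ := roughPart p ⌊(a ^ p - b ^ p) / (a - b)⌋₊

open Classical in
/-- The number of primes `p ≤ n` in the set `S` for which `W a b p` is prime. -/
noncomputable def M (S : Set ℕ) (a b : ℝ) (n : ℕ) : ℕ :=
  ((Finset.range (n + 1)).filter (fun p => p.Prime ∧ p ∈ S ∧ (W a b p).Prime)).card

open Classical in
/-- The sum of `log p / p` over the primes `p ≤ n` in the set `S`. -/
noncomputable def V (S : Set ℕ) (n : ℕ) : ℝ :=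
  ∑ p ∈ (Finset.range (n + 1)).filter (fun p => p.Prime ∧ p ∈ S), Real.log p / p

/-- `s ↦ (α s, β s)`, `s ∈ I`, is a curve of class `C²` in the region `a > 1`, `|b| < a`, without
vertical tangents. -/
structure IsCurve (I : Set ℝ) (α β : ℝ → ℝ) : Prop where
  isOpen : IsOpen I
  contDiffOn_fst : ContDiffOn ℝ 2 α I
  contDiffOn_snd : ContDiffOn ℝ 2 β I
  region : ∀ s ∈ I, 1 < α s ∧ |β s| < α s
  notVertical : ∀ s ∈ I, deriv α s ≠ 0

lemma V_eq (S : Set ℕ) (n : ℕ) : V S n = Pool.Agent.TH888.R.VS S n := by
  classical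
  unfold V Pool.Agent.TH888.R.VS
  rw [Finset.sum_filter]
  refine Finset.sum_congr rfl fun p _ => ?_
  by_cases h : p.Prime ∧ p ∈ S
  · rw [if_pos h, if_pos ⟨h.2, h.1⟩]
    rfl
  · rw [if_neg h, if_neg fun h1 => h ⟨h1.2, h1.1⟩]

/-- The integer points. -/
lemma special {a b : ℤ} (hab : IsCoprime a b) (h1 : -a < b) (h2 : b < a) {p : ℕ} (hp : p.Prime)
    (hpd : ¬ (p : ℤ) ∣ a - b) : (W a b p : ℤ) * (a - b) = a ^ p - b ^ p := by
  have hne : (a : ℝ) - b ≠ 0 := by
    have : (b : ℝ) < a := by exact_mod_cast h2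
    have h3 : 0 < (a : ℝ) - b := by linarith
    exact h3.ne'
  have h := Pool.Agent.H447R2.ML.rough_quot hab h1 h2 hp hpd
    (x := ((a : ℝ) ^ p - (b : ℝ) ^ p) / ((a : ℝ) - b)) (by field_simp)
  have hgeom : (∑ i ∈ Finset.range p, a ^ i * b ^ (p - 1 - i)) * (a - b) = a ^ p - b ^ p :=
    (Commute.all a b).geom_sum₂_mul p
  rw [← h] at hgeom
  exact hgeom

lemma M_eq (S : Set ℕ) (a b : ℝ) (n : ℕ) :
    M S a b n = Pool.Agent.TH888.R.cS S (fun p => ⌊(a ^ p - b ^ p) / (a - b)⌋₊) n := by
  classical
  unfold M Pool.Agent.TH888.R.cS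
  rfl

/-- At the coprime integer points the values are the numbers of the question.  At almost every
point of every curve the law holds with a square root error term; for every set of primes the
number of prime values at almost every point is finite or infinite according to the weight of the
set, and in the second case it obeys the corresponding law. -/
theorem result :
    (∀ a b : ℤ, IsCoprime a b → -a < b → b < a → ∀ p : ℕ, p.Prime → ¬ (p : ℤ) ∣ a - b →
      (W a b p : ℤ) * (a - b) = a ^ p - b ^ p) ∧
    (∀ (I : Set ℝ) (α β : ℝ → ℝ), IsCurve I α β → ∀ᵐ s : ℝ, s ∈ I →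
      (fun n : ℕ => (M Set.univ (α s) (β s) n : ℝ) -
        Real.exp Real.eulerMascheroniConstant / Real.log (α s) * Real.log n) =O[atTop]
      (fun n : ℕ => Real.sqrt (Real.log n) * (Real.log (Real.log n)) ^ ((5 : ℝ) / 2))) ∧
    (∀ (I : Set ℝ) (α β : ℝ → ℝ), IsCurve I α β → ∀ S : Set ℕ, Tendsto (V S) atTop atTop →
      ∀ᵐ s : ℝ, s ∈ I →
      (fun n : ℕ => (M S (α s) (β s) n : ℝ) -
        Real.exp Real.eulerMascheroniConstant / Real.log (α s) * V S n) =O[atTop]
      (fun n : ℕ => Real.sqrt (V S n * Real.log (Real.log n)) *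
        (Real.log (V S n * Real.log (Real.log n))) ^ 2)) ∧
    (∀ (I : Set ℝ) (α β : ℝ → ℝ), IsCurve I α β → ∀ S : Set ℕ, ∀ᵐ s : ℝ, s ∈ I →
      ({p : ℕ | p.Prime ∧ p ∈ S ∧ (W (α s) (β s) p).Prime}.Infinite ↔
        Tendsto (V S) atTop atTop)) := by
  have hV : ∀ S, V S = Pool.Agent.TH888.R.VS S := fun S => funext fun n => V_eq S n
  have pt : ∀ (I : Set ℝ) (α β : ℝ → ℝ), IsCurve I α β → ∀ S : Set ℕ, ∀ᵐ s : ℝ, s ∈ I →
      Pool.Agent.TH888.R.Pt (fun p => ⌊(α s ^ p - β s ^ p) / (α s - β s)⌋₊)
        (Real.exp Real.eulerMascheroniConstant / Real.log (α s)) S := fun I α β h S =>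
    Pool.Agent.J6H88.PC.pt_par S h.isOpen h.contDiffOn_fst h.contDiffOn_snd h.region h.notVertical
  refine ⟨fun a b hab h1 h2 p hp hpd => special hab h1 h2 hp hpd, fun I α β hc => ?_,
    fun I α β hc S hS => ?_, fun I α β hc S => ?_⟩
  · filter_upwards [pt I α β hc Set.univ] with a ha h0
    obtain ⟨B, hB, h⟩ := (ha h0).law Pool.Agent.TH888.R.VS_univ_tendsto
    simp only [M_eq]
    exact Pool.Agent.TH888.R.bigO_all hB h
  · rw [hV] at hS ⊢
    filter_upwards [pt I α β hc S] with a ha h0
    obtain ⟨B, hB, h⟩ := (ha h0).law hS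
    simp only [M_eq]
    exact Pool.Agent.TH888.R.bigO_set hB hS h
  · rw [hV]
    filter_upwards [pt I α β hc S] with a ha h0
    constructor
    · intro hi
      by_contra hn
      exact hi ((ha h0).fin hn)
    · exact (ha h0).inf

end Pool.Agent.Results.MP_de9007_nt.PairsOnCurves
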