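import Mathlib
import Pool.Agent.J6H29.PL.Pois

set_option autoImplicit false

/-!
# The numbers `(a ^ p - b ^ p) / (a - b)`: the Poisson law

For integers `a`, `b` with `1 ≤ |b| < a`, a real `β > 0` and a prime `p` let `W a b β p` be the
`p`-rough part (the product, with multiplicity, of the prime factors larger than `p`) of
`⌈β a ^ p⌉ - ⌈b ^ p / (a - b)⌉`.  For coprime `a`, `b` and `β = 1 / (a - b)` this is the number
`(a ^ p - b ^ p) / (a - b)` of the question, for every prime `p` that does not divide `a - b`.

According to the model of Lenstra, Pomerance and Wagstaff the exponents `p` with `W a b β p` prime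
form, for a general `β`, a Poisson process in which the prime `p` has the intensity
`κ a * log p / p`, where `κ a = e ^ γ / log a`.  We prove that this is so for sparse families of
primes, for all pairs `(a, b)`: let `T n 1, …, T n k` be finite disjoint sets of primes, whose least
elements tend to infinity with `n`, with `κ a * V (T n j) → l j` (`V` is the sum of `log p / p`), and
let `β` be random with any absolutely continuous law on the positive reals.  If the weights of the sets
in the intervals `(x, 2 x]` tend to zero uniformly in `x`, then the numbers of the exponents in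
`T n 1, …, T n k` converge in law to independent Poisson variables with the parameters `l 1, …, l k`.
The sets may be all primes of short windows `(x, (1 + δ) x]` far apart from each other, with `δ → 0`.

For `b = ± 1` a pair of exponents `p < q` may be degenerate: with probability `a ^ (-(q - p))` the integer
of `q` is `a ^ (q - p)` times the integer of `p`, and then its rough part is (nearly always) the same.
For `|b| = 1` (and only then) we assume in addition that the sum of `(log p / p) * a ^ (-(q - p))` over the
pairs `p < q` tends to zero.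

The earlier results for almost every `β` (`WindowsForAllPairs.lean` and the files named there) bound
the fluctuations; they contain no limit law.  The proof: the moments of one and of two exponents by a
sieve (helpers 176, 441, 34, 286, 833, 897, 372 and the authors named in `WindowsForAllPairs.lean`), the
mean of an exponent given the first `1 / K` of the digits, and a recursion for the characteristic
functional, one exponent after the other (helper29).
-/

namespace Pool.Agent.Results.MP_de9007_nt.PoissonLaw

open Filter Topology MeasureTheory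

/-- The product, with multiplicity, of the prime factors of `m` that are larger than `p`. -/
def roughPart (p m : ℕ) : ℕ := (m.primeFactorsList.filter (fun r => p < r)).prod

/-- The `p`-rough part of `⌈β a ^ p⌉ - ⌈b ^ p / (a - b)⌉`. -/
noncomputable def W (a : ℕ) (b : ℤ) (β : ℝ) (p : ℕ) : ℕ :=
  roughPart p (⌈β * (a : ℝ) ^ p⌉ - ⌈(b : ℝ) ^ p / ((a : ℝ) - b)⌉).toNat

open Classical in
/-- The number of the elements `p` of `T` for which `W a b β p` is prime. -/
noncomputable def N (a : ℕ) (b : ℤ) (T : Finset ℕ) (β : ℝ) : ℕ := (T.filter (fun p => (W a b β p).Prime)).card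

/-- The weight of a set: the sum of `log p / p`. -/
noncomputable def V (T : Finset ℕ) : ℝ := ∑ p ∈ T, Real.log p / p

/-- The sum of `(log p / p) * a ^ (-(q - p))` over the pairs `p < q` in `U`. -/
noncomputable def clusters (a : ℕ) (U : Finset ℕ) : ℝ :=
  ∑ q ∈ U, ∑ p ∈ U.filter (fun p => p < q), Real.log p / p / (a : ℝ) ^ (q - p)

/-- The constant of the law, `e ^ γ / log a`. -/
noncomputable def κ (a : ℕ) : ℝ := Real.exp Real.eulerMascheroniConstant / Real.log a

/-- The special values; the Poisson law for disjoint sparse families of exponents, for all pairs and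
all absolutely continuous laws of the amplitude. -/
theorem result :
    (∀ (a : ℕ) (b : ℤ), 1 ≤ |b| → |b| < a → IsCoprime (a : ℤ) b → ∀ p : ℕ, p.Prime →
      ¬ (p : ℤ) ∣ a - b → (W a b (1 / ((a : ℝ) - b)) p : ℤ) * (a - b) = (a : ℤ) ^ p - b ^ p) ∧
    (∀ (a : ℕ) (b : ℤ), 1 ≤ |b| → |b| < a → ∀ (k : ℕ) (T : ℕ → Fin k → Finset ℕ),
      (∀ n j, ∀ p ∈ T n j, p.Prime) →
      (∀ n, Pairwise fun i j => Disjoint (T n i) (T n j)) →
      (∀ P : ℕ, ∀ᶠ n in atTop, ∀ j, ∀ p ∈ T n j, P ≤ p) →
      (∀ ε : ℝ, 0 < ε → ∀ᶠ n in atTop, ∀ j, ∀ x : ℕ, V ((T n j).filter (fun p => x < p ∧ p ≤ 2 * x)) ≤ ε) →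
      (|b| = 1 → Tendsto (fun n => clusters a (Finset.univ.biUnion (T n))) atTop (𝓝 0)) →
      ∀ l : Fin k → ℝ, (∀ j, Tendsto (fun n => κ a * V (T n j)) atTop (𝓝 (l j))) →
      ∀ ν : Measure ℝ, IsProbabilityMeasure ν → ν ≪ volume → ν (Set.Iic 0) = 0 → ∀ r : Fin k → ℕ,
      Tendsto (fun n => ν.real {β | ∀ j, N a b (T n j) β = r j}) atTop
        (𝓝 (∏ j, Real.exp (-(l j)) * (l j) ^ (r j) / ((r j).factorial : ℝ)))) := by
  refine ⟨fun a b _ h2 h3 p hp hpd => Pool.Agent.N176.SH.spe h2 h3 hp hpd, ?_⟩
  intro a b h1 h2 k T hT hdis hmin hD hC l hl ν hν1 hν2 hν3 r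
  have := hν1
  exact Pool.Agent.J6H29.PL.poisson h1 h2 hT hdis hmin hD hC hl ν hν2 hν3 r

end Pool.Agent.Results.MP_de9007_nt.PoissonLaw
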